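import Pool.Agent.Lib.MP_e1777c_an.Final
import Pool.Agent.Lib.MP_e1777c_an.Arith

/-!
# Crossing directions do not force the shortcut in homotopical rotation sets

There are a closed hyperbolic surface and a homeomorphism of it, homotopic to the identity, with two
rotation vectors of positive speed in crossing directions `(α₁, β₁)`, `(α₂, β₂)`, but without any
rotation vector of positive speed in the direction `(α₁, β₂)`. The definitions used in the statement
are in `Pool/Agent/Lib/MP_e1777c_an/Defs.lean`.
-/

open Pool.Agent.Lib.MP_e1777c_an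

namespace Pool.Agent.Results.MP_e1777c_an.SlowRivers

/-- The forcing statement for crossing directions of homotopical rotation sets is false. -/
theorem result : ∃ (Γ : SurfaceGroup) (F : Plane ≃ₜ Plane), IsLift Γ F ∧
    ∃ (α₁ β₁ α₂ β₂ : Boundary) (v₁ v₂ : ℝ),
      IsRotationVector F α₁ β₁ v₁ ∧ IsRotationVector F α₂ β₂ v₂ ∧ Cross α₁ β₁ α₂ β₂ ∧
      ∀ v' : ℝ, ¬ IsRotationVector F α₁ β₂ v' :=
  counterexample arith

end Pool.Agent.Results.MP_e1777c_an.SlowRivers
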